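import Mathlib

set_option autoImplicit false

open MeasureTheory Set
open scoped ContDiff

namespace Pool.Agent.N284.Inv

/-- `Df` is the weak differential of `f ∈ W^{1,1}_loc(Ω, ℝⁿ)`: both are locally integrable on `Ω` and
integration by parts holds against all smooth functions with compact support in `Ω`, in all
directions `v`. -/
def HasWeakDifferential {n : ℕ} (Ω : Set (EuclideanSpace ℝ (Fin n)))
    (f : EuclideanSpace ℝ (Fin n) → EuclideanSpace ℝ (Fin n))
    (Df : EuclideanSpace ℝ (Fin n) → EuclideanSpace ℝ (Fin n) →L[ℝ] EuclideanSpace ℝ (Fin n)) :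
    Prop :=
  LocallyIntegrableOn f Ω ∧ LocallyIntegrableOn Df Ω ∧
    ∀ φ : EuclideanSpace ℝ (Fin n) → ℝ, ContDiff ℝ ∞ φ → HasCompactSupport φ → tsupport φ ⊆ Ω →
      ∀ v : EuclideanSpace ℝ (Fin n),
        ∫ x, (fderiv ℝ φ x v) • f x = - ∫ x, φ x • Df x v

/-- `f` has finite distortion on `Ω`, with the weak differential `Df`: `f ∈ W^{1,1}_loc(Ω, ℝⁿ)`, the
Jacobian is locally integrable and `|Df|ⁿ ≤ K J_f` almost everywhere for some measurable
`K : Ω → [1, ∞)`. -/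
def HasFiniteDistortion {n : ℕ} (Ω : Set (EuclideanSpace ℝ (Fin n)))
    (f : EuclideanSpace ℝ (Fin n) → EuclideanSpace ℝ (Fin n))
    (Df : EuclideanSpace ℝ (Fin n) → EuclideanSpace ℝ (Fin n) →L[ℝ] EuclideanSpace ℝ (Fin n)) :
    Prop :=
  HasWeakDifferential Ω f Df ∧ LocallyIntegrableOn (fun x => (Df x).det) Ω ∧
    ∃ K : EuclideanSpace ℝ (Fin n) → ℝ, Measurable K ∧ (∀ x, 1 ≤ K x) ∧
      ∀ᵐ x ∂(volume.restrict Ω), ‖Df x‖ ^ n ≤ K x * (Df x).det

/-- The distortion `|A|ⁿ / det A` of a matrix if `det A > 0`, and `1` otherwise. -/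
noncomputable def distortion {n : ℕ}
    (A : EuclideanSpace ℝ (Fin n) →L[ℝ] EuclideanSpace ℝ (Fin n)) : ℝ :=
  if 0 < A.det then ‖A‖ ^ n / A.det else 1

/-- The class `𝓕ₙ`: `Ω` is open, `f` is a homeomorphism of `Ω` onto `f(Ω)` with the inverse `g`, it has
finite distortion, with the weak differential `Df`, and the distortion is in `L^{n-1}_loc(Ω)`. -/
structure InClass {n : ℕ} (Ω : Set (EuclideanSpace ℝ (Fin n)))
    (f g : EuclideanSpace ℝ (Fin n) → EuclideanSpace ℝ (Fin n))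
    (Df : EuclideanSpace ℝ (Fin n) → EuclideanSpace ℝ (Fin n) →L[ℝ] EuclideanSpace ℝ (Fin n)) :
    Prop where
  isOpen : IsOpen Ω
  continuousOn : ContinuousOn f Ω
  leftInv : ∀ x ∈ Ω, g (f x) = x
  continuousOn_inv : ContinuousOn g (f '' Ω)
  finiteDistortion : HasFiniteDistortion Ω f Df
  distortion_mem : LocallyIntegrableOn (fun x => distortion (Df x) ^ (n - 1)) Ω

/-- The exponent `α > 0` is admissible: for every `f` in the class, with inverse `g`, and every ball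
`B(z, R)` compactly contained in `f(Ω)` there is a constant `C` with
`|g(x) - g(z)| ≤ C log^{-α}(R / |x - z|)` for all `x ≠ z` in `B(z, R)`. -/
def Admissible (n : ℕ) (α : ℝ) : Prop :=
  0 < α ∧ ∀ (Ω : Set (EuclideanSpace ℝ (Fin n)))
    (f g : EuclideanSpace ℝ (Fin n) → EuclideanSpace ℝ (Fin n))
    (Df : EuclideanSpace ℝ (Fin n) → EuclideanSpace ℝ (Fin n) →L[ℝ] EuclideanSpace ℝ (Fin n)),
    InClass Ω f g Df → ∀ (z : EuclideanSpace ℝ (Fin n)) (R : ℝ), 0 < R →
      Metric.closedBall z R ⊆ f '' Ω →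
      ∃ C : ℝ, ∀ x ∈ Metric.ball z R, x ≠ z →
        ‖g x - g z‖ ≤ C * Real.log (R / ‖x - z‖) ^ (-α)

end Pool.Agent.N284.Inv
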