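import Pool.Agent.N284.Inv.Int

/-! The distortion is locally in `L^{n-1}`. -/

set_option autoImplicit false

open Filter Topology MeasureTheory Set
open scoped NNReal ContDiff ENNReal

namespace Pool.Agent.N284.Inv

variable {m : ℕ} (p : Par)

/-- the dominating function -/
noncomputable def Bd (m : ℕ) (R : ℝ) (z : ℝ × (Fin m → ℝ)) : ℝ≥0∞ :=
  (Icc (-R) R).indicator 1 z.1 * (Metric.closedBall (0 : Fin m → ℝ) R).indicator 1 z.2 +
    ∑' k, (Ioo (-p.d k) (p.d k)).indicator 1 z.1 *
      (Metric.closedBall (0 : Fin m → ℝ) R).indicator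
        (fun y => ENNReal.ofReal (((p.sl k ‖y‖)⁻¹) ^ m)) z.2

lemma meas_sl (k : ℕ) : Measurable (fun y : Fin m → ℝ => ENNReal.ofReal (((p.sl k ‖y‖)⁻¹) ^ m)) := by
  apply Measurable.ennreal_ofReal
  apply Measurable.pow_const
  apply Measurable.inv
  unfold Par.sl Par.cl
  exact ((measurable_const.max (measurable_norm.min measurable_const)).div_const _).const_mul _

lemma meas_Bd (R : ℝ) : Measurable (Bd p m R) := by
  unfold Bd
  refine Measurable.add ?_ (Measurable.tsum fun k => ?_)
  · exact ((measurable_one.indicator measurableSet_Icc).comp measurable_fst).mul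
      ((measurable_one.indicator Metric.isClosed_closedBall.measurableSet).comp measurable_snd)
  · exact ((measurable_one.indicator measurableSet_Ioo).comp measurable_fst).mul
      (((meas_sl p k).indicator Metric.isClosed_closedBall.measurableSet).comp measurable_snd)

lemma ennreal_sum_ne_top {f : ℕ → ℝ} (hf : Summable f) (h0 : ∀ k, 0 ≤ f k) :
    ∑' k, ENNReal.ofReal (f k) ≠ ⊤ := by
  rw [← ENNReal.ofReal_tsum_of_nonneg h0 hf]
  exact ENNReal.ofReal_ne_top

lemma int_Bd (hm : 1 ≤ m) (hp : p.Good m) (R : ℝ) :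
    ∫⁻ x : E (m + 1), Bd p m R (x 0, fun i => x i.succ) < ⊤ := by
  rw [tonelli _ (meas_Bd p R)]
  set V := volume (Metric.closedBall (0 : Fin m → ℝ) R) with hV
  have hVt : V ≠ ⊤ := measure_closedBall_lt_top.ne
  have h1 : ∀ t, ∫⁻ y, Bd p m R (t, y) = (Icc (-R) R).indicator 1 t * V +
      ∑' k, (Ioo (-p.d k) (p.d k)).indicator 1 t *
        ∫⁻ y in Metric.closedBall (0 : Fin m → ℝ) R, ENNReal.ofReal (((p.sl k ‖y‖)⁻¹) ^ m) := by
    intro t
    unfold Bd
    simp only
    rw [lintegral_add_left]
    · congr 1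
      · rw [lintegral_const_mul, lintegral_indicator_one Metric.isClosed_closedBall.measurableSet]
        exact measurable_one.indicator Metric.isClosed_closedBall.measurableSet
      · rw [lintegral_tsum]
        · refine tsum_congr fun k => ?_
          rw [lintegral_const_mul, lintegral_indicator Metric.isClosed_closedBall.measurableSet]
          exact (meas_sl p k).indicator Metric.isClosed_closedBall.measurableSet
        · intro k
          exact (((meas_sl p k).indicator
            Metric.isClosed_closedBall.measurableSet).const_mul _).aemeasurable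
    · exact (measurable_one.indicator Metric.isClosed_closedBall.measurableSet).const_mul _
  simp only [h1]
  rw [lintegral_add_left]
  swap
  · exact (measurable_one.indicator measurableSet_Icc).mul_const _
  rw [lintegral_tsum]
  swap
  · intro k
    exact ((measurable_one.indicator measurableSet_Ioo).mul_const _).aemeasurable
  refine ENNReal.add_lt_top.mpr ⟨?_, ?_⟩
  · rw [lintegral_mul_const, lintegral_indicator_one measurableSet_Icc]
    · exact ENNReal.mul_lt_top (by simp) hVt.lt_top
    · exact measurable_one.indicator measurableSet_Icc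
  · have h2 : ∀ k, ∫⁻ t, (Ioo (-p.d k) (p.d k)).indicator 1 t *
        ∫⁻ y in Metric.closedBall (0 : Fin m → ℝ) R, ENNReal.ofReal (((p.sl k ‖y‖)⁻¹) ^ m) ≤
        ENNReal.ofReal (2 * p.d k * ((2 : ℝ) ^ (k + 1)) ^ m) * V +
          ENNReal.ofReal (cst m) * ENNReal.ofReal (2 * p.d k * ((2 : ℝ) ^ (k + 1)) ^ m *
    (p.d k ^ m * (1 + Real.log (p.d k / p.e k)))) := by
      intro k
      have hd := p.d_pos k
      have he := p.he k
      have hl : 0 ≤ Real.log (p.d k / p.e k) :=
        Real.log_nonneg ((one_le_div he).mpr (p.hed k))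
      rw [lintegral_mul_const _ (measurable_one.indicator measurableSet_Ioo),
        lintegral_indicator_one measurableSet_Ioo, Real.volume_Ioo]
      have e : p.d k - -p.d k = 2 * p.d k := by ring
      rw [e]
      refine (mul_le_mul_right (layer_int p hm k R) _).trans ?_
      rw [mul_add, mul_add, ← mul_assoc, ← mul_assoc,
        ← ENNReal.ofReal_mul (by positivity)]
      refine add_le_add le_rfl ?_
      rw [← ENNReal.ofReal_mul (by positivity), ← ENNReal.ofReal_mul (cst_nonneg m)]
      apply ENNReal.ofReal_le_ofReal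
      apply le_of_eq
      ring
    refine (ENNReal.tsum_le_tsum h2).trans_lt ?_
    rw [ENNReal.tsum_add, ENNReal.tsum_mul_right, ENNReal.tsum_mul_left]
    refine ENNReal.add_lt_top.mpr ⟨?_, ?_⟩
    · refine ENNReal.mul_lt_top (ennreal_sum_ne_top hp.s1 fun k => ?_).lt_top hVt.lt_top
      have hd := p.d_pos k
      positivity
    · refine ENNReal.mul_lt_top ENNReal.ofReal_lt_top
        (ennreal_sum_ne_top hp.s2 fun k => ?_).lt_top
      have hd := p.d_pos k
      have he := p.he k
      have hl : 0 ≤ Real.log (p.d k / p.e k) :=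
        Real.log_nonneg ((one_le_div he).mpr (p.hed k))
      positivity

lemma meas_distortion {n : ℕ} : Measurable (fun A : E n →L[ℝ] E n => distortion A) := by
  unfold distortion
  have hdet : Measurable (fun A : E n →L[ℝ] E n => A.det) :=
    ContinuousLinearMap.continuous_det.measurable
  exact Measurable.ite (measurableSet_lt measurable_const hdet)
    ((measurable_norm.pow_const _).div hdet) measurable_const

lemma pt_bound {R : ℝ} (x : E (m + 1)) (hx : ‖x‖ ≤ R)
    (h : ((1 < |x 0| ∧ (fderiv ℝ (F p) x).det = 1) ∨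
      ∃ k, p.d (k + 1) < |x 0| ∧ |x 0| < p.d k ∧ (fderiv ℝ (F p) x).det = p.sl k (rho x))) :
    ENNReal.ofReal (distortion (fderiv ℝ (F p) x) ^ m) ≤
      ENNReal.ofReal (((5 : ℝ) ^ (m + 1)) ^ m) * Bd p m R (x 0, fun i => x i.succ) := by
  have hR : 0 ≤ R := (norm_nonneg x).trans hx
  have hx0 : x 0 ∈ Icc (-R) R := abs_le.mp ((PiLp.norm_apply_le x 0).trans hx)
  have hy : (fun i : Fin m => x i.succ) ∈ Metric.closedBall (0 : Fin m → ℝ) R := by
    rw [mem_closedBall_zero_iff, pi_norm_le_iff_of_nonneg hR]
    exact fun i => (PiLp.norm_apply_le x i.succ).trans hx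
  have key : ∀ w : ℝ, 0 < w → (fderiv ℝ (F p) x).det = w →
      ENNReal.ofReal (distortion (fderiv ℝ (F p) x) ^ m) ≤
        ENNReal.ofReal (((5 : ℝ) ^ (m + 1)) ^ m) * ENNReal.ofReal ((w⁻¹) ^ m) := by
    intro w hw hdet
    rw [← ENNReal.ofReal_mul (by positivity)]
    apply ENNReal.ofReal_le_ofReal
    unfold distortion
    rw [hdet, if_pos hw, ← mul_pow, ← div_eq_mul_inv]
    have := norm_fderiv_F p x
    gcongr
  rcases h with ⟨-, h⟩ | ⟨k, h1, h2, h⟩
  · refine (key 1 one_pos h).trans ?_
    gcongr
    unfold Bd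
    simp only
    rw [indicator_of_mem hx0, indicator_of_mem hy]
    simp
  · refine (key _ (p.sl_pos k _) h).trans ?_
    gcongr
    unfold Bd
    refine le_trans ?_ le_add_self
    refine le_trans ?_ (ENNReal.le_tsum k)
    simp only
    rw [indicator_of_mem (show x 0 ∈ Ioo (-p.d k) (p.d k) from abs_lt.mp h2), indicator_of_mem hy]
    simp [rho]

lemma locInt {G : Type*} [NormedAddCommGroup G] {f : E (m + 1) → G}
    (h : ∀ R, IntegrableOn f (Metric.closedBall 0 R)) :
    LocallyIntegrableOn f univ := by
  rw [locallyIntegrableOn_univ]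
  intro x
  refine ⟨Metric.closedBall 0 (‖x‖ + 1), ?_, h _⟩
  refine mem_of_superset (Metric.ball_mem_nhds x one_pos) fun y hy => ?_
  rw [mem_closedBall_zero_iff]
  have h1 := norm_sub_norm_le y x
  rw [mem_ball_iff_norm] at hy
  linarith

lemma dist_int (hm : 1 ≤ m) (hp : p.Good m) :
    LocallyIntegrableOn (fun x : E (m + 1) => distortion (fderiv ℝ (F p) x) ^ m) univ := by
  refine locInt fun R => ?_
  refine ⟨((meas_distortion.comp (meas_fderiv p)).pow_const m).aestronglyMeasurable, ?_⟩
  rw [hasFiniteIntegral_iff_norm]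
  have h1 : ∫⁻ x in Metric.closedBall (0 : E (m + 1)) R,
      ENNReal.ofReal ‖distortion (fderiv ℝ (F p) x) ^ m‖ ≤
      ∫⁻ x in Metric.closedBall (0 : E (m + 1)) R,
      ENNReal.ofReal (((5 : ℝ) ^ (m + 1)) ^ m) * Bd p m R (x 0, fun i => x i.succ) := by
    refine setLIntegral_mono_ae' Metric.isClosed_closedBall.measurableSet ?_
    filter_upwards [ae_good p] with x hx hxR
    rw [mem_closedBall_zero_iff] at hxR
    have hnn : 0 ≤ distortion (fderiv ℝ (F p) x) := by
      unfold distortion
      split_ifs with h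
      · positivity
      · exact zero_le_one
    rw [Real.norm_of_nonneg (pow_nonneg hnn _)]
    exact pt_bound p x hxR hx.2
  refine h1.trans_lt ?_
  rw [lintegral_const_mul']
  · refine ENNReal.mul_lt_top ENNReal.ofReal_lt_top ?_
    exact (setLIntegral_le_lintegral _ _).trans_lt (int_Bd p hm hp R)
  · exact ENNReal.ofReal_ne_top

lemma inClass (hm : 1 ≤ m) (hp : p.Good m) :
    InClass (n := m + 1) univ (F p) ((homeo p).symm) (fderiv ℝ (F p)) := by
  have hDf : ∀ R, IntegrableOn (fderiv ℝ (F p : E (m + 1) → E (m + 1)))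
      (Metric.closedBall 0 R) := by
    intro R
    refine Measure.integrableOn_of_bounded (M := 5) measure_closedBall_lt_top.ne
      (meas_fderiv p).aestronglyMeasurable ?_
    filter_upwards with x
    exact norm_fderiv_F p x
  refine ⟨isOpen_univ, (F_lip p).continuous.continuousOn, fun x _ => ?_, ?_, ⟨⟨?_, locInt hDf, ?_⟩,
    ?_, ?_⟩, dist_int p hm hp⟩
  · exact (homeo p).symm_apply_apply x
  · exact (homeo p).symm.continuous.continuousOn
  · exact (F_lip p).continuous.locallyIntegrable.locallyIntegrableOn _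
  · intro φ hφ hc _ v
    exact weak_of_lipschitz (F_lip p) φ hφ hc v
  · refine locInt fun R => ?_
    refine Measure.integrableOn_of_bounded (M := 1) measure_closedBall_lt_top.ne
      (meas_det p).aestronglyMeasurable ?_
    refine ae_restrict_of_ae ?_
    filter_upwards [ae_det p] with x hx
    rw [Real.norm_of_nonneg hx.1.le]
    exact hx.2
  · refine ⟨fun x => max 1 (distortion (fderiv ℝ (F p) x)),
      measurable_const.max (meas_distortion.comp (meas_fderiv p)), fun x => le_max_left _ _, ?_⟩
    refine ae_restrict_of_ae ?_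
    filter_upwards [ae_det p] with x hx
    calc ‖fderiv ℝ (F p) x‖ ^ (m + 1) = distortion (fderiv ℝ (F p) x) * (fderiv ℝ (F p) x).det := by
          unfold distortion
          rw [if_pos hx.1, div_mul_cancel₀ _ hx.1.ne']
      _ ≤ _ := mul_le_mul_of_nonneg_right (le_max_right _ _) hx.1.le

end Pool.Agent.N284.Inv
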