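import Pool.Agent.N284.Inv.Dist

/-! The construction of the parameters, and the theorem. -/

set_option autoImplicit false

open Filter Topology MeasureTheory Set
open scoped NNReal ContDiff ENNReal

namespace Pool.Agent.N284.Inv

variable {m : ℕ}

/-- the next parameter is chosen so large that all the following conditions hold -/
lemma next_exists {β : ℝ} (hβ : 0 < β) (hβm : 1 < β * (m + 1)) (k : ℕ) (L0 : ℝ) :
    ∃ L : ℝ, L0 + 1 ≤ L ∧ L ^ (-β) ≤ Real.exp (-L0) ∧
      2 * L ^ (-β) * ((2 : ℝ) ^ (k + 2)) ^ m ≤ (1 / 2) ^ (k + 1) ∧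
      2 * L ^ (-β) * ((2 : ℝ) ^ (k + 2)) ^ m * ((L ^ (-β)) ^ m * (1 + L)) ≤ (1 / 2) ^ (k + 1) := by
  have h1 : ∀ᶠ L : ℝ in atTop, L0 + 1 ≤ L := eventually_ge_atTop _
  have h0 := tendsto_rpow_neg_atTop hβ
  have h2 : ∀ᶠ L : ℝ in atTop, L ^ (-β) ≤ Real.exp (-L0) :=
    (h0.eventually_lt_const (Real.exp_pos _)).mono fun _ h => h.le
  have h3 : ∀ᶠ L : ℝ in atTop, 2 * L ^ (-β) * ((2 : ℝ) ^ (k + 2)) ^ m ≤ (1 / 2) ^ (k + 1) := by
    have : Tendsto (fun L : ℝ => 2 * L ^ (-β) * ((2 : ℝ) ^ (k + 2)) ^ m) atTop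
        (𝓝 (2 * 0 * ((2 : ℝ) ^ (k + 2)) ^ m)) := (h0.const_mul 2).mul_const _
    rw [mul_zero, zero_mul] at this
    exact (this.eventually_lt_const (by positivity)).mono fun _ h => h.le
  have h4 : ∀ᶠ L : ℝ in atTop, 2 * L ^ (-β) * ((2 : ℝ) ^ (k + 2)) ^ m *
      ((L ^ (-β)) ^ m * (1 + L)) ≤ (1 / 2) ^ (k + 1) := by
    have ha : Tendsto (fun L : ℝ => L ^ (-(β * (m + 1)))) atTop (𝓝 0) :=
      tendsto_rpow_neg_atTop (by linarith)
    have hb : Tendsto (fun L : ℝ => L ^ (-(β * (m + 1) - 1))) atTop (𝓝 0) :=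
      tendsto_rpow_neg_atTop (by linarith)
    have hc := (ha.add hb).const_mul (2 * ((2 : ℝ) ^ (k + 2)) ^ m)
    rw [add_zero, mul_zero] at hc
    filter_upwards [hc.eventually_lt_const (show (0 : ℝ) < (1 / 2) ^ (k + 1) by positivity),
      eventually_gt_atTop 0] with L hL hL0
    refine le_trans (le_of_eq ?_) hL.le
    have e1 : L ^ (-(β * (m + 1))) = L ^ (-β) * (L ^ (-β)) ^ m := by
      rw [← Real.rpow_natCast, ← Real.rpow_mul hL0.le, ← Real.rpow_add hL0]
      congr 1; ring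
    have e2 : L ^ (-(β * (m + 1) - 1)) = L ^ (-(β * (m + 1))) * L := by
      nth_rewrite 3 [← Real.rpow_one L]
      rw [← Real.rpow_add hL0]
      congr 1; ring
    rw [e2, e1]; ring
  obtain ⟨L, a, b, c, d⟩ := (h1.and (h2.and (h3.and h4))).exists
  exact ⟨L, a, b, c, d⟩

lemma seq_exists {β : ℝ} (hβ : 0 < β) (hβ1 : β ≤ 1) (hβm : 1 < β * (m + 1)) :
    ∃ (p : Par) (L : ℕ → ℝ), p.Good m ∧ (∀ k, 1 ≤ L k) ∧ Tendsto L atTop atTop ∧
      (∀ k, p.d k = L k ^ (-β)) ∧ (∀ k, p.e k = Real.exp (-(L k))) := by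
  choose N hN1 hN2 hN3 hN4 using fun (k : ℕ) (L0 : ℝ) => next_exists hβ hβm k L0
  let L : ℕ → ℝ := fun k => Nat.rec 1 (fun k l => N k l) k
  have hL0 : L 0 = 1 := rfl
  have hLs : ∀ k, L (k + 1) = N k (L k) := fun k => rfl
  have hLk : ∀ k : ℕ, (k : ℝ) + 1 ≤ L k := by
    intro k
    induction k with
    | zero => simp [hL0]
    | succ k ih =>
      have := hN1 k (L k)
      rw [hLs]
      push_cast
      linarith
  have hL1 : ∀ k, 1 ≤ L k := fun k => le_trans (by
    have : (0 : ℝ) ≤ k := Nat.cast_nonneg k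
    linarith) (hLk k)
  have hLt : Tendsto L atTop atTop := by
    refine tendsto_atTop_mono hLk ?_
    exact tendsto_atTop_add_const_right _ _ tendsto_natCast_atTop_atTop
  let p : Par :=
    { d := fun k => L k ^ (-β)
      e := fun k => Real.exp (-(L k))
      d0 := by simp [hL0]
      he := fun k => Real.exp_pos _
      hed := fun k => by
        have h1 := hL1 k
        have h2 : L k ^ β ≤ L k := by
          calc L k ^ β ≤ L k ^ (1 : ℝ) := Real.rpow_le_rpow_of_exponent_le h1 hβ1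
            _ = L k := Real.rpow_one _
        have h3 : L k ≤ Real.exp (L k) := by linarith [Real.add_one_le_exp (L k)]
        rw [Real.exp_neg, Real.rpow_neg (by linarith)]
        exact inv_anti₀ (Real.rpow_pos_of_pos (by linarith) _) (h2.trans h3)
      hde := fun k => hN2 k (L k)
      lim := (tendsto_rpow_neg_atTop hβ).comp hLt }
  refine ⟨p, L, ⟨?_, ?_⟩, hL1, hLt, fun _ => rfl, fun _ => rfl⟩
  · rw [← summable_nat_add_iff 1]
    refine Summable.of_nonneg_of_le (fun k => ?_) (fun k => hN3 k (L k))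
      ((summable_nat_add_iff 1).mpr summable_geometric_two)
    have := p.d_pos (k + 1)
    positivity
  · rw [← summable_nat_add_iff 1]
    refine Summable.of_nonneg_of_le (fun k => ?_) (fun k => ?_)
      ((summable_nat_add_iff 1).mpr summable_geometric_two)
    · have hd := p.d_pos (k + 1)
      have he := p.he (k + 1)
      have hl : 0 ≤ Real.log (p.d (k + 1) / p.e (k + 1)) :=
        Real.log_nonneg ((one_le_div he).mpr (p.hed (k + 1)))
      positivity
    · refine le_trans ?_ (hN4 k (L k))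
      have hd : 0 < N k (L k) ^ (-β) := p.d_pos (k + 1)
      have hd1 : N k (L k) ^ (-β) ≤ 1 := p.d_le_one (k + 1)
      have e : Real.log (p.d (k + 1) / p.e (k + 1)) =
          Real.log (N k (L k) ^ (-β)) + N k (L k) := by
        show Real.log (N k (L k) ^ (-β) / Real.exp (-(N k (L k)))) = _
        rw [Real.log_div hd.ne' (Real.exp_pos _).ne', Real.log_exp, sub_neg_eq_add]
      rw [e]
      show 2 * N k (L k) ^ (-β) * ((2 : ℝ) ^ (k + 2)) ^ m *
        ((N k (L k) ^ (-β)) ^ m * (1 + (Real.log (N k (L k) ^ (-β)) + N k (L k)))) ≤ _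
      have hlog : Real.log (N k (L k) ^ (-β)) ≤ 0 := Real.log_nonpos hd.le hd1
      gcongr
      linarith

lemma F_axis (p : Par) (t : ℝ) : F p (t • e0 : E (m + 1)) = p.tau t 0 • e0 := by
  have h1 : rho (t • e0 : E (m + 1)) = 0 := by
    unfold rho
    rw [norm_eq_zero]
    funext i
    simp [e0_succ]
  have h2 : (t • e0 : E (m + 1)) 0 = t := by simp [e0_zero]
  unfold F
  rw [h1, h2]
  module

theorem main (n : ℕ) (hn : 2 ≤ n) (α : ℝ) (h : Admissible n α) : α ≤ 1 / n := by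
  obtain ⟨m, rfl⟩ : ∃ m, n = m + 1 := ⟨n - 1, by omega⟩
  have hm : 1 ≤ m := by omega
  by_contra hcon
  push Not at hcon
  obtain ⟨hα, hA⟩ := h
  have hn0 : (0 : ℝ) < ((m + 1 : ℕ) : ℝ) := by positivity
  have hn1 : 1 / ((m + 1 : ℕ) : ℝ) < 1 := by
    rw [div_lt_one hn0]
    push_cast
    have : (1 : ℝ) ≤ m := by exact_mod_cast hm
    linarith
  obtain ⟨β, hβ1, hβ2⟩ := exists_between (lt_min hcon hn1)
  have hβα : β < α := hβ2.trans_le (min_le_left _ _)
  have hβ1' : β < 1 := hβ2.trans_le (min_le_right _ _)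
  have hβ0 : 0 < β := lt_trans (by positivity) hβ1
  have hβm : 1 < β * (m + 1) := by
    rw [div_lt_iff₀ hn0] at hβ1
    push_cast at hβ1
    exact hβ1
  obtain ⟨p, L, hgood, hL1, hLt, hd, he⟩ := seq_exists hβ0 hβ1'.le hβm
  obtain ⟨C, hC⟩ := hA univ (F p) ((homeo p).symm) (fderiv ℝ (F p)) (inClass p hm hgood) 0 1
    one_pos (by rw [image_univ, (F_surj p).range_eq]; exact subset_univ _)
  have key : ∀ k, L k ^ (α - β) ≤ |C| := by
    intro k
    have hLk : 0 < L k := lt_of_lt_of_le one_pos (hL1 k)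
    have ht0 : 0 < p.tau (p.d k) 0 := by
      have := p.tau_strictMono 0 (p.d_pos k)
      simp only [p.tau_zero] at this
      exact this
    have ht1 : p.tau (p.d k) 0 ≤ Real.exp (-(L k)) := by
      rw [← he k]; exact p.tau_flat k
    have ht2 : p.tau (p.d k) 0 < 1 := ht1.trans_lt (by
      rw [Real.exp_lt_one_iff]; linarith)
    have hnorm : ‖(p.tau (p.d k) 0 • e0 : E (m + 1))‖ = p.tau (p.d k) 0 := by
      rw [norm_smul, norm_e0, mul_one, Real.norm_of_nonneg ht0.le]
    have hg0 : (homeo p).symm (0 : E (m + 1)) = 0 := by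
      rw [(homeo p).symm_apply_eq, homeo_apply]
      have := F_axis (m := m) p 0
      rw [zero_smul, p.tau_zero, zero_smul] at this
      exact this.symm
    have hgk : (homeo p).symm (p.tau (p.d k) 0 • e0 : E (m + 1)) = p.d k • e0 := by
      rw [(homeo p).symm_apply_eq, homeo_apply, F_axis]
    have h1 := hC (p.tau (p.d k) 0 • e0) (by rw [mem_ball_zero_iff, hnorm]; exact ht2) (by
      intro h0
      rw [h0, norm_zero] at hnorm
      linarith)
    rw [hg0, hgk, sub_zero, sub_zero, hnorm, norm_smul, norm_e0, mul_one,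
      Real.norm_of_nonneg (p.d_pos k).le, hd k] at h1
    have hlog : L k ≤ Real.log (1 / p.tau (L k ^ (-β)) 0) := by
      rw [← hd k, one_div, Real.log_inv]
      have := Real.log_le_log ht0 ht1
      rw [Real.log_exp] at this
      linarith
    have h2 : Real.log (1 / p.tau (L k ^ (-β)) 0) ^ (-α) ≤ L k ^ (-α) :=
      Real.rpow_le_rpow_of_nonpos hLk hlog (by linarith)
    have h3 : 0 ≤ Real.log (1 / p.tau (L k ^ (-β)) 0) ^ (-α) :=
      Real.rpow_nonneg (hLk.le.trans hlog) _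
    have h4 : L k ^ (-β) ≤ |C| * L k ^ (-α) := by
      refine h1.trans ?_
      calc C * Real.log (1 / p.tau (L k ^ (-β)) 0) ^ (-α)
          ≤ |C| * Real.log (1 / p.tau (L k ^ (-β)) 0) ^ (-α) := by
            gcongr
            exact le_abs_self C
        _ ≤ _ := by gcongr
    calc L k ^ (α - β) = L k ^ (-β) * L k ^ α := by
          rw [← Real.rpow_add hLk]; congr 1; ring
      _ ≤ (|C| * L k ^ (-α)) * L k ^ α := by gcongr
      _ = |C| := by rw [mul_assoc, ← Real.rpow_add hLk, neg_add_cancel, Real.rpow_zero, mul_one]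
  have h5 : Tendsto (fun k => L k ^ (α - β)) atTop atTop :=
    (tendsto_rpow_atTop (by linarith)).comp hLt
  obtain ⟨k, hk⟩ := (h5.eventually_gt_atTop |C|).exists
  exact absurd (key k) (not_le.mpr hk)

end Pool.Agent.N284.Inv
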