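import Pool.Agent.N284.Inv.Polar
import Pool.Agent.N284.Inv.Defs

/-! Integrability of the distortion. -/

set_option autoImplicit false

open Filter Topology MeasureTheory Set
open scoped NNReal ContDiff ENNReal

namespace Pool.Agent.N284.Inv

variable {m : ℕ} (p : Par)

lemma layer {t : ℝ} (h0 : t ≠ 0) (h : ∀ k, |t| ≠ p.d k) :
    1 < |t| ∨ ∃ k, p.d (k + 1) < |t| ∧ |t| < p.d k := by
  classical
  by_cases h1 : 1 < |t|
  · exact Or.inl h1
  · right
    have hpos : 0 < |t| := abs_pos.mpr h0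
    have hex : ∃ k, p.d k < |t| := (p.lim.eventually_lt_const hpos).exists
    have h2 := Nat.find_spec hex
    have h3 : Nat.find hex ≠ 0 := by
      intro h4
      rw [h4, p.d0] at h2
      exact h1 h2
    obtain ⟨k, hk⟩ := Nat.exists_eq_succ_of_ne_zero h3
    refine ⟨k, ?_, ?_⟩
    · rw [hk] at h2; exact h2
    · have h4 := Nat.find_min hex (m := k) (by omega)
      exact lt_of_le_of_ne (not_lt.mp h4) (h k)

lemma ae_zero_notMem {S : Set ℝ} (hS : S.Countable) : ∀ᵐ x : E (m + 1), x 0 ∉ S := by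
  have h1 : Measure.QuasiMeasurePreserving (fun x : E (m + 1) => x 0) volume volume := by
    have ha := (PiLp.volume_preserving_ofLp (Fin (m + 1))).quasiMeasurePreserving
    have hb := (volume_preserving_piFinSuccAbove
      (fun _ : Fin (m + 1) => ℝ) 0).quasiMeasurePreserving
    have hc : Measure.QuasiMeasurePreserving (Prod.fst : ℝ × (Fin m → ℝ) → ℝ) volume volume :=
      Measure.quasiMeasurePreserving_fst
    exact (hc.comp hb).comp ha
  exact h1.ae (hS.ae_notMem volume)

/-- the almost everywhere description of the differential -/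
lemma ae_good : ∀ᵐ x : E (m + 1), DifferentiableAt ℝ (F p) x ∧
    ((1 < |x 0| ∧ (fderiv ℝ (F p) x).det = 1) ∨
      ∃ k, p.d (k + 1) < |x 0| ∧ |x 0| < p.d k ∧ (fderiv ℝ (F p) x).det = p.sl k (rho x)) := by
  have hS : ({0} ∪ ⋃ k, {t : ℝ | |t| = p.d k}).Countable := by
    refine (countable_singleton 0).union (countable_iUnion fun k => ?_)
    apply Set.Countable.mono (s₂ := {p.d k, -p.d k})
    · intro t ht
      rcases eq_or_eq_neg_of_abs_eq (show |t| = p.d k from ht) with h | h
      · exact Or.inl h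
      · exact Or.inr h
    · exact (Set.toFinite _).countable
  filter_upwards [(F_lip p).ae_differentiableAt (μ := (volume : Measure (E (m + 1)))),
    ae_zero_notMem hS] with x hx hx2
  refine ⟨hx, ?_⟩
  have h0 : x 0 ≠ 0 := fun h => hx2 (Or.inl h)
  have hk : ∀ k, |x 0| ≠ p.d k := fun k h => hx2 (Or.inr (mem_iUnion.mpr ⟨k, h⟩))
  rcases layer p h0 hk with h | ⟨k, h1, h2⟩
  · exact Or.inl ⟨h, det_F p hx (p.tau_deriv_outer h _)⟩
  · exact Or.inr ⟨k, h1, h2, det_F p hx (p.tau_deriv_inner k h1 h2 _)⟩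

lemma ae_det : ∀ᵐ x : E (m + 1), 0 < (fderiv ℝ (F p) x).det ∧ (fderiv ℝ (F p) x).det ≤ 1 := by
  filter_upwards [ae_good p] with x hx
  rcases hx.2 with ⟨-, h⟩ | ⟨k, -, -, h⟩
  · rw [h]; exact ⟨one_pos, le_rfl⟩
  · rw [h]
    exact ⟨p.sl_pos _ _, (p.sl_le _ _).trans (pow_le_one₀ (by norm_num) (by norm_num))⟩

lemma meas_fderiv : Measurable (fun x : E (m + 1) => fderiv ℝ (F p) x) := measurable_fderiv ℝ _

lemma meas_det : Measurable (fun x : E (m + 1) => (fderiv ℝ (F p) x).det) :=
  ContinuousLinearMap.continuous_det.measurable.comp (meas_fderiv p)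

/-- the summability conditions -/
structure Par.Good (m : ℕ) : Prop where
  s1 : Summable (fun k => 2 * p.d k * ((2 : ℝ) ^ (k + 1)) ^ m)
  s2 : Summable (fun k => 2 * p.d k * ((2 : ℝ) ^ (k + 1)) ^ m *
    (p.d k ^ m * (1 + Real.log (p.d k / p.e k))))

lemma layer_int (hm : 1 ≤ m) (k : ℕ) (R : ℝ) :
    ∫⁻ y in Metric.closedBall (0 : Fin m → ℝ) R, ENNReal.ofReal (((p.sl k ‖y‖)⁻¹) ^ m) ≤
      ENNReal.ofReal (((2 : ℝ) ^ (k + 1)) ^ m) *
        (volume (Metric.closedBall (0 : Fin m → ℝ) R) +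
          ENNReal.ofReal (cst m * (p.d k ^ m * (1 + Real.log (p.d k / p.e k))))) := by
  have hd := p.d_pos k
  have he := p.he k
  have hpt : ∀ y : Fin m → ℝ, ENNReal.ofReal (((p.sl k ‖y‖)⁻¹) ^ m) ≤
      ENNReal.ofReal (((2 : ℝ) ^ (k + 1)) ^ m) * (1 + (Metric.ball (0 : Fin m → ℝ) (p.d k)).indicator
        (fun y => ENNReal.ofReal ((p.d k / max (p.e k) ‖y‖) ^ m)) y) := by
    intro y
    have e1 : ((p.sl k ‖y‖)⁻¹) ^ m = ((2 : ℝ) ^ (k + 1)) ^ m * (p.d k / p.cl k ‖y‖) ^ m := by
      unfold Par.sl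
      rw [← mul_pow, mul_inv, inv_div, one_div, inv_pow, inv_inv]
    rw [e1, ENNReal.ofReal_mul (by positivity)]
    gcongr
    by_cases hy : ‖y‖ < p.d k
    · rw [indicator_of_mem (by simpa using hy)]
      have : p.cl k ‖y‖ = max (p.e k) ‖y‖ := by
        unfold Par.cl; rw [min_eq_left hy.le]
      rw [this]
      exact le_add_self
    · rw [indicator_of_notMem (by simpa using hy)]
      have : p.cl k ‖y‖ = p.d k := by
        unfold Par.cl; rw [min_eq_right (not_lt.mp hy), max_eq_right (p.hed k)]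
      rw [this, div_self hd.ne', one_pow, ENNReal.ofReal_one, add_zero]
  have hmeas : Measurable (fun y : Fin m → ℝ => ENNReal.ofReal ((p.d k / max (p.e k) ‖y‖) ^ m)) := by
    apply Measurable.ennreal_ofReal
    apply Measurable.pow_const
    exact measurable_const.div (measurable_const.max measurable_norm)
  calc ∫⁻ y in Metric.closedBall (0 : Fin m → ℝ) R, ENNReal.ofReal (((p.sl k ‖y‖)⁻¹) ^ m)
      ≤ ∫⁻ y in Metric.closedBall (0 : Fin m → ℝ) R, ENNReal.ofReal (((2 : ℝ) ^ (k + 1)) ^ m) *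
        (1 + (Metric.ball (0 : Fin m → ℝ) (p.d k)).indicator
        (fun y => ENNReal.ofReal ((p.d k / max (p.e k) ‖y‖) ^ m)) y) := lintegral_mono hpt
    _ = ENNReal.ofReal (((2 : ℝ) ^ (k + 1)) ^ m) *
        (volume (Metric.closedBall (0 : Fin m → ℝ) R) +
          ∫⁻ y in Metric.closedBall (0 : Fin m → ℝ) R, (Metric.ball (0 : Fin m → ℝ) (p.d k)).indicator
        (fun y => ENNReal.ofReal ((p.d k / max (p.e k) ‖y‖) ^ m)) y) := by
        rw [lintegral_const_mul _ (by
          exact measurable_const.add (hmeas.indicator Metric.isOpen_ball.measurableSet)),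
          lintegral_add_left measurable_const, lintegral_one, Measure.restrict_apply_univ]
    _ ≤ _ := by
        gcongr
        refine (setLIntegral_le_lintegral _ _).trans ?_
        rw [lintegral_indicator Metric.isOpen_ball.measurableSet]
        exact polar_bound hm he (p.hed k)

end Pool.Agent.N284.Inv
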