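import Pool.Agent.N284.Inv.Tau

/-! The shear map. -/

set_option autoImplicit false

open Filter Topology MeasureTheory

namespace Pool.Agent.N284.Inv

abbrev E (n : ℕ) : Type := EuclideanSpace ℝ (Fin n)

variable {m : ℕ}

/-- the sup norm of the last `m` coordinates -/
noncomputable def rho (x : E (m + 1)) : ℝ := ‖(fun i : Fin m => x i.succ)‖

/-- the first basis vector -/
noncomputable def e0 : E (m + 1) := EuclideanSpace.single (0 : Fin (m + 1)) (1 : ℝ)

lemma norm_e0 : ‖(e0 : E (m + 1))‖ = 1 := by simp [e0]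

lemma e0_zero : (e0 : E (m + 1)) 0 = 1 := by simp [e0]

lemma e0_succ (i : Fin m) : (e0 : E (m + 1)) i.succ = 0 := by
  simp [e0]

/-- the map -/
noncomputable def F (p : Par) (x : E (m + 1)) : E (m + 1) :=
  x + (p.tau (x 0) (rho x) - x 0) • e0

variable (p : Par)

lemma F_zero (x : E (m + 1)) : F p x 0 = p.tau (x 0) (rho x) := by
  simp [F, e0_zero]

lemma F_succ (x : E (m + 1)) (i : Fin m) : F p x i.succ = x i.succ := by
  simp [F, e0_succ]

lemma rho_F (x : E (m + 1)) : rho (F p x) = rho x := by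
  unfold rho
  simp only [F_succ]

lemma rho_lip (x y : E (m + 1)) : |rho x - rho y| ≤ ‖x - y‖ := by
  unfold rho
  refine (abs_norm_sub_norm_le _ _).trans ?_
  rw [pi_norm_le_iff_of_nonneg (norm_nonneg _)]
  intro i
  exact PiLp.norm_apply_le (x - y) i.succ

lemma zero_lip (x y : E (m + 1)) : |x 0 - y 0| ≤ ‖x - y‖ := PiLp.norm_apply_le (x - y) 0

lemma F_sub (x y : E (m + 1)) : ‖F p x - F p y‖ ≤ 5 * ‖x - y‖ := by
  have h1 : F p x - F p y = (x - y) +
      ((p.tau (x 0) (rho x) - p.tau (y 0) (rho x)) + (p.tau (y 0) (rho x) - p.tau (y 0) (rho y)) -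
        (x 0 - y 0)) • (e0 : E (m + 1)) := by
    unfold F
    module
  rw [h1]
  refine (norm_add_le _ _).trans ?_
  rw [norm_smul, norm_e0, mul_one, Real.norm_eq_abs]
  have h2 := p.tau_t (y 0) (x 0) (rho x)
  have h3 := p.tau_rho (y 0) (rho x) (rho y)
  have h4 := rho_lip x y
  have h5 := zero_lip x y
  have h6 := abs_sub (p.tau (x 0) (rho x) - p.tau (y 0) (rho x) +
    (p.tau (y 0) (rho x) - p.tau (y 0) (rho y))) (x 0 - y 0)
  have h7 := abs_add_le (p.tau (x 0) (rho x) - p.tau (y 0) (rho x))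
    (p.tau (y 0) (rho x) - p.tau (y 0) (rho y))
  linarith

lemma F_lip : LipschitzWith 5 (F p : E (m + 1) → E (m + 1)) :=
  LipschitzWith.of_dist_le_mul fun x y => by
    rw [dist_eq_norm, dist_eq_norm]
    exact_mod_cast F_sub p x y

lemma F_near (x : E (m + 1)) : ‖F p x - x‖ ≤ 2 := by
  have : F p x - x = (p.tau (x 0) (rho x) - x 0) • e0 := by unfold F; abel
  rw [this, norm_smul, norm_e0, mul_one]
  exact p.tau_near _ _

lemma ext_iff' {x y : E (m + 1)} : x = y ↔ x 0 = y 0 ∧ ∀ i : Fin m, x i.succ = y i.succ := by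
  constructor
  · rintro rfl; exact ⟨rfl, fun _ => rfl⟩
  · rintro ⟨h0, h1⟩
    ext i
    refine Fin.cases h0 h1 i

lemma F_inj : Function.Injective (F p : E (m + 1) → E (m + 1)) := by
  intro x y h
  have h1 : ∀ i : Fin m, x i.succ = y i.succ := fun i => by
    rw [← F_succ p x, ← F_succ p y, h]
  have h2 : rho x = rho y := by
    rw [← rho_F p x, h, rho_F]
  have h3 : p.tau (x 0) (rho x) = p.tau (y 0) (rho x) := by
    rw [← F_zero p x, h, F_zero, h2]
  exact ext_iff'.mpr ⟨(p.tau_strictMono (rho x)).injective h3, h1⟩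

lemma tau_surj (s ρ : ℝ) : ∃ t, p.tau t ρ = s := by
  have hc : Continuous (fun t => p.tau t ρ) := by
    have : LipschitzWith 2 (fun t => p.tau t ρ) :=
      LipschitzWith.of_dist_le_mul fun x y => by
        rw [Real.dist_eq, Real.dist_eq]
        exact_mod_cast p.tau_t y x ρ
    exact this.continuous
  have h1 : p.tau (s - 2) ρ ≤ s := by
    have := (abs_le.mp (p.tau_near (s - 2) ρ)).2
    linarith
  have h2 : s ≤ p.tau (s + 2) ρ := by
    have := (abs_le.mp (p.tau_near (s + 2) ρ)).1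
    linarith
  obtain ⟨t, -, ht⟩ := intermediate_value_Icc (by linarith : s - 2 ≤ s + 2) hc.continuousOn
    ⟨h1, h2⟩
  exact ⟨t, ht⟩

lemma F_surj : Function.Surjective (F p : E (m + 1) → E (m + 1)) := by
  intro y
  obtain ⟨t, ht⟩ := tau_surj p (y 0) (rho y)
  have hr : rho (y + (t - y 0) • e0) = rho y := by
    unfold rho
    congr 1
    funext i
    simp [e0_succ]
  refine ⟨y + (t - y 0) • e0, ext_iff'.mpr ⟨?_, fun i => ?_⟩⟩
  · rw [F_zero, hr]
    simp [e0_zero, ht]
  · rw [F_succ]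
    simp [e0_succ]

lemma F_closed : IsClosedMap (F p : E (m + 1) → E (m + 1)) := by
  have h : IsProperMap (F p : E (m + 1) → E (m + 1)) := by
    rw [isProperMap_iff_tendsto_cocompact]
    refine ⟨(F_lip p).continuous, ?_⟩
    rw [← Metric.cobounded_eq_cocompact, ← tendsto_norm_atTop_iff_cobounded]
    have h1 : Tendsto (fun x : E (m + 1) => ‖x‖ - 2) (Bornology.cobounded (E (m + 1))) atTop :=
      tendsto_atTop_add_const_right _ _ tendsto_norm_cobounded_atTop
    refine tendsto_atTop_mono (fun x => ?_) h1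
    have h2 := F_near p x
    have h3 := norm_sub_norm_le x (F p x)
    rw [norm_sub_rev] at h3
    linarith
  exact h.isClosedMap

/-- the map as a homeomorphism -/
noncomputable def homeo : E (m + 1) ≃ₜ E (m + 1) :=
  (Equiv.ofBijective (F p) ⟨F_inj p, F_surj p⟩).toHomeomorphOfContinuousClosed
    (F_lip p).continuous (F_closed p)

lemma homeo_apply (x : E (m + 1)) : homeo p x = F p x := rfl

end Pool.Agent.N284.Inv
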