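import Pool.Agent.N284.Inv.Weak

/-! Integrals in polar coordinates and Tonelli's theorem. -/

set_option autoImplicit false

open Filter Topology MeasureTheory Set
open scoped NNReal ContDiff ENNReal

namespace Pool.Agent.N284.Inv

lemma int_inv_max {e d : ℝ} (he : 0 < e) (hed : e ≤ d) :
    ∫ y in Ioo (0 : ℝ) d, (max e y)⁻¹ = 1 + Real.log (d / e) := by
  have hd : 0 < d := he.trans_le hed
  rw [← integral_Ioc_eq_integral_Ioo, ← intervalIntegral.integral_of_le hd.le]
  have hc : Continuous (fun y : ℝ => (max e y)⁻¹) := by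
    apply Continuous.inv₀ (by fun_prop)
    intro y
    have : 0 < max e y := lt_max_of_lt_left he
    exact this.ne'
  rw [← intervalIntegral.integral_add_adjacent_intervals (hc.intervalIntegrable 0 e)
    (hc.intervalIntegrable e d)]
  have h1 : ∫ y in (0 : ℝ)..e, (max e y)⁻¹ = 1 := by
    have : ∫ y in (0 : ℝ)..e, (max e y)⁻¹ = ∫ y in (0 : ℝ)..e, e⁻¹ := by
      apply intervalIntegral.integral_congr
      intro y hy
      rw [uIcc_of_le he.le] at hy
      simp only
      rw [max_eq_left hy.2]
    rw [this, intervalIntegral.integral_const, smul_eq_mul, sub_zero, mul_inv_cancel₀ he.ne']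
  have h2 : ∫ y in e..d, (max e y)⁻¹ = Real.log (d / e) := by
    have : ∫ y in e..d, (max e y)⁻¹ = ∫ y in e..d, y⁻¹ := by
      apply intervalIntegral.integral_congr
      intro y hy
      rw [uIcc_of_le hed] at hy
      simp only
      rw [max_eq_right hy.1]
    rw [this, integral_inv_of_pos he hd]
  rw [h1, h2]

/-- the constant -/
noncomputable def cst (m : ℕ) : ℝ :=
  (m : ℝ) * (volume : Measure (Fin m → ℝ)).real (Metric.ball 0 1)

lemma cst_nonneg (m : ℕ) : 0 ≤ cst m := by unfold cst; positivity

lemma polar_bound {m : ℕ} (hm : 1 ≤ m) {e d : ℝ} (he : 0 < e) (hed : e ≤ d) :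
    ∫⁻ y in Metric.ball (0 : Fin m → ℝ) d, ENNReal.ofReal ((d / max e ‖y‖) ^ m) ≤
      ENNReal.ofReal (cst m * (d ^ m * (1 + Real.log (d / e)))) := by
  have hd : 0 < d := he.trans_le hed
  haveI : Nonempty (Fin m) := ⟨⟨0, hm⟩⟩
  set g : ℝ → ℝ := (Iio d).indicator (fun s => (d / max e s) ^ m) with hg
  have hmax : ∀ s, 0 < max e s := fun s => lt_max_of_lt_left he
  have hcont : Continuous (fun s : ℝ => (d / max e s) ^ m) := by
    apply Continuous.pow
    exact continuous_const.div (by fun_prop) fun s => (hmax s).ne'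
  have hgm : Measurable g := hcont.measurable.indicator measurableSet_Iio
  have hg0 : ∀ s, 0 ≤ g s := fun s => indicator_nonneg (fun s _ => by
    have := hmax s
    positivity) s
  have hgb : ∀ s, g s ≤ (d / e) ^ m := by
    intro s
    rw [hg]
    refine (indicator_le_self' (fun s _ => ?_) s).trans ?_
    · have := hmax s
      positivity
    · gcongr
      exact le_max_left _ _
  have e1 : ∫⁻ y in Metric.ball (0 : Fin m → ℝ) d, ENNReal.ofReal ((d / max e ‖y‖) ^ m) =
      ∫⁻ y : Fin m → ℝ, ENNReal.ofReal (g ‖y‖) := by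
    rw [← lintegral_indicator Metric.isOpen_ball.measurableSet]
    apply lintegral_congr
    intro y
    by_cases hy : ‖y‖ < d
    · rw [indicator_of_mem (by simpa using hy), hg, indicator_of_mem (by simpa using hy)]
    · rw [indicator_of_notMem (by simpa using hy), hg, indicator_of_notMem (by simpa using hy),
        ENNReal.ofReal_zero]
  have hint : Integrable (fun y : Fin m → ℝ => g ‖y‖) := by
    have h1 : IntegrableOn (fun y : Fin m → ℝ => g ‖y‖) (Metric.ball 0 d) := by
      refine Measure.integrableOn_of_bounded (M := (d / e) ^ m)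
        measure_ball_lt_top.ne ?_ ?_
      · exact (hgm.comp measurable_norm).aestronglyMeasurable
      · filter_upwards with y
        rw [Real.norm_of_nonneg (hg0 _)]
        exact hgb _
    rw [← integrableOn_univ]
    refine h1.of_forall_sdiff_eq_zero MeasurableSet.univ fun y hy => ?_
    have : ¬ ‖y‖ < d := fun h => hy.2 (by simpa using h)
    rw [hg, indicator_of_notMem (by simpa using this)]
  rw [e1, ← ofReal_integral_eq_lintegral_ofReal hint (Eventually.of_forall fun y => hg0 _)]
  apply ENNReal.ofReal_le_ofReal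
  rw [integral_fun_norm_addHaar volume g, Module.finrank_fin_fun, nsmul_eq_mul, smul_eq_mul,
    ← mul_assoc]
  unfold cst
  gcongr
  have e2 : ∫ y in Ioi (0 : ℝ), y ^ (m - 1) • g y =
      ∫ y in Ioo (0 : ℝ) d, y ^ (m - 1) * (d / max e y) ^ m := by
    have : ∀ y, y ^ (m - 1) • g y = (Iio d).indicator (fun y => y ^ (m - 1) * (d / max e y) ^ m) y := by
      intro y
      rw [hg]
      by_cases hy : y ∈ Iio d
      · rw [indicator_of_mem hy, indicator_of_mem hy, smul_eq_mul]
      · rw [indicator_of_notMem hy, indicator_of_notMem hy, smul_zero]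
    simp only [this]
    rw [setIntegral_indicator measurableSet_Iio, Ioi_inter_Iio]
  rw [e2]
  calc ∫ y in Ioo (0 : ℝ) d, y ^ (m - 1) * (d / max e y) ^ m
      ≤ ∫ y in Ioo (0 : ℝ) d, d ^ m * (max e y)⁻¹ := by
        refine setIntegral_mono_on ?_ ?_ measurableSet_Ioo fun y hy => ?_
        · apply (ContinuousOn.integrableOn_Icc (a := 0) (b := d) _).mono_set Ioo_subset_Icc_self
          exact ((continuous_pow _).mul hcont).continuousOn
        · apply (ContinuousOn.integrableOn_Icc (a := 0) (b := d) _).mono_set Ioo_subset_Icc_self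
          apply Continuous.continuousOn
          exact continuous_const.mul (Continuous.inv₀ (by fun_prop) fun s => (hmax s).ne')
        · have h0 := hmax y
          have h1 : y ^ (m - 1) ≤ (max e y) ^ (m - 1) :=
            pow_le_pow_left₀ hy.1.le (le_max_right _ _) _
          have h2 : (max e y) ^ m = (max e y) ^ (m - 1) * max e y := by
            rw [← pow_succ, Nat.sub_add_cancel hm]
          rw [div_pow, h2]
          calc y ^ (m - 1) * (d ^ m / ((max e y) ^ (m - 1) * max e y))
              ≤ (max e y) ^ (m - 1) * (d ^ m / ((max e y) ^ (m - 1) * max e y)) := by gcongr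
            _ = d ^ m * (max e y)⁻¹ := by field_simp
    _ = d ^ m * (1 + Real.log (d / e)) := by
        rw [integral_const_mul, int_inv_max he hed]

/-- Tonelli -/
lemma tonelli {m : ℕ} (G : ℝ × (Fin m → ℝ) → ℝ≥0∞) (hG : Measurable G) :
    ∫⁻ x : E (m + 1), G (x 0, fun i => x i.succ) = ∫⁻ t, ∫⁻ y, G (t, y) := by
  have h1 : ∫⁻ x : E (m + 1), G (x 0, fun i => x i.succ) =
      ∫⁻ x : Fin (m + 1) → ℝ, G (x 0, fun i => x i.succ) := by
    have hm : Measurable (fun x : Fin (m + 1) → ℝ => G (x 0, fun i => x i.succ)) := by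
      apply hG.comp
      exact (measurable_pi_apply 0).prodMk (measurable_pi_lambda _ fun i => measurable_pi_apply _)
    exact (PiLp.volume_preserving_ofLp (Fin (m + 1))).lintegral_comp hm
  have h2 : ∫⁻ x : Fin (m + 1) → ℝ, G (x 0, fun i => x i.succ) =
      ∫⁻ z : ℝ × (Fin m → ℝ), G z := by
    have := (volume_preserving_piFinSuccAbove (fun _ : Fin (m + 1) => ℝ) 0).lintegral_comp hG
    rw [← this]
    apply lintegral_congr
    intro x
    rfl
  rw [h1, h2, Measure.volume_eq_prod, lintegral_prod _ hG.aemeasurable]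

end Pool.Agent.N284.Inv
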