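import Mathlib

/-! The profile of a shear map with bad inverse: `τ t ρ`. -/

set_option autoImplicit false

open Filter Topology

namespace Pool.Agent.N284.Inv

/-- the projection of `t` to `[-c, c]` -/
noncomputable def P (c t : ℝ) : ℝ := max (-c) (min t c)

lemma P_zero {c : ℝ} (hc : 0 ≤ c) : P c 0 = 0 := by
  unfold P
  rw [min_eq_left hc, max_eq_right (by linarith)]

lemma P_outer {c s t : ℝ} (hc : 0 ≤ c) (hst : s ≤ t) :
    0 ≤ (t - P c t) - (s - P c s) ∧ (t - P c t) - (s - P c s) ≤ t - s := by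
  unfold P
  constructor <;>
  · rcases le_total t c with h1 | h1 <;> rcases le_total s c with h3 | h3 <;>
    simp only [min_eq_left, min_eq_right, h1, h3] <;>
    rcases le_total (-c) t with h5 | h5 <;> rcases le_total (-c) s with h7 | h7 <;>
    rcases le_total (-c) c with h9 | h9 <;>
    simp only [max_eq_left, max_eq_right, h5, h7, h9] <;> linarith

lemma P_lip {d s t : ℝ} (hd : 0 ≤ d) (hst : s ≤ t) :
    P d s ≤ P d t ∧ P d t - P d s ≤ t - s := by
  unfold P
  constructor <;>
  · rcases le_total t d with h2 | h2 <;> rcases le_total s d with h4 | h4 <;>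
    simp only [min_eq_left, min_eq_right, h2, h4] <;>
    rcases le_total (-d) t with h6 | h6 <;> rcases le_total (-d) s with h8 | h8 <;>
    rcases le_total (-d) d with h10 | h10 <;>
    simp only [max_eq_left, max_eq_right, h6, h8, h10] <;> linarith

lemma P_comp {c d : ℝ} (hc : 0 ≤ c) (hcd : c ≤ d) (t : ℝ) : P c (P d t) = P c t := by
  unfold P
  rcases le_total t (-d) with h | h
  · have e1 : min t d = t := min_eq_left (by linarith)
    have e2 : max (-d) t = -d := max_eq_left h
    have e3 : min t c = t := min_eq_left (by linarith)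
    have e4 : min (-d) c = -d := min_eq_left (by linarith)
    have e5 : max (-c) t = -c := max_eq_left (by linarith)
    have e6 : max (-c) (-d) = -c := max_eq_left (by linarith)
    rw [e1, e2, e3, e4, e5, e6]
  · rcases le_total t d with h' | h'
    · rw [min_eq_left h', max_eq_right h]
    · have e1 : min t d = d := min_eq_right h'
      have e2 : max (-d) d = d := max_eq_right (by linarith)
      have e3 : min t c = c := min_eq_right (by linarith)
      have e4 : min d c = c := min_eq_right hcd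
      rw [e1, e2, e3, e4]

lemma P_diff {c d s t : ℝ} (hc : 0 ≤ c) (hcd : c ≤ d) (hst : s ≤ t) :
    0 ≤ (P d t - P c t) - (P d s - P c s) ∧ (P d t - P c t) - (P d s - P c s) ≤ t - s := by
  have h1 := P_lip (hc.trans hcd) hst
  have h2 := P_outer hc h1.1
  rw [P_comp hc hcd, P_comp hc hcd] at h2
  constructor <;> linarith [h1.2, h2.1, h2.2]

lemma P_abs {c : ℝ} (hc : 0 ≤ c) (t : ℝ) : |P c t| ≤ c := by
  unfold P
  rw [abs_le]
  exact ⟨le_max_left _ _, max_le (by linarith) (min_le_right _ _)⟩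

lemma P_cont (c : ℝ) : Continuous (P c) := by
  unfold P; fun_prop

/-- parameters -/
structure Par where
  d : ℕ → ℝ
  e : ℕ → ℝ
  d0 : d 0 = 1
  he : ∀ k, 0 < e k
  hed : ∀ k, e k ≤ d k
  hde : ∀ k, d (k + 1) ≤ e k
  lim : Tendsto d atTop (𝓝 0)

namespace Par

variable (p : Par)

lemma d_pos (k : ℕ) : 0 < p.d k := (p.he k).trans_le (p.hed k)

lemma d_anti : Antitone p.d := antitone_nat_of_succ_le fun k => (p.hde k).trans (p.hed k)

lemma d_le_one (k : ℕ) : p.d k ≤ 1 := p.d0 ▸ p.d_anti (Nat.zero_le k)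

/-- the truncation of `ρ` to `[e k, d k]` -/
noncomputable def cl (k : ℕ) (ρ : ℝ) : ℝ := max (p.e k) (min ρ (p.d k))

lemma cl_pos (k : ℕ) (ρ : ℝ) : 0 < p.cl k ρ := (p.he k).trans_le (le_max_left _ _)

lemma cl_le (k : ℕ) (ρ : ℝ) : p.cl k ρ ≤ p.d k := max_le (p.hed k) (min_le_right _ _)

/-- the slope factor -/
noncomputable def sl (k : ℕ) (ρ : ℝ) : ℝ := (1 / 2) ^ (k + 1) * (p.cl k ρ / p.d k)

lemma sl_pos (k : ℕ) (ρ : ℝ) : 0 < p.sl k ρ :=
  mul_pos (by positivity) (div_pos (p.cl_pos k ρ) (p.d_pos k))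

lemma sl_le (k : ℕ) (ρ : ℝ) : p.sl k ρ ≤ (1 / 2) ^ (k + 1) := by
  unfold sl
  have : p.cl k ρ / p.d k ≤ 1 := (div_le_one (p.d_pos k)).mpr (p.cl_le k ρ)
  exact mul_le_of_le_one_right (by positivity) this

/-- the difference of two truncations of `t` -/
noncomputable def q (k : ℕ) (t : ℝ) : ℝ := P (p.d k) t - P (p.d (k + 1)) t

lemma q_mono (k : ℕ) {s t : ℝ} (h : s ≤ t) : 0 ≤ p.q k t - p.q k s ∧ p.q k t - p.q k s ≤ t - s :=
  P_diff (p.d_pos _).le (p.d_anti (Nat.le_succ k)) h

lemma q_zero (k : ℕ) : p.q k 0 = 0 := by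
  unfold q; rw [P_zero (p.d_pos _).le, P_zero (p.d_pos _).le, sub_zero]

lemma q_lip (k : ℕ) (s t : ℝ) : |p.q k t - p.q k s| ≤ |t - s| := by
  rcases le_total s t with h | h
  · have := p.q_mono k h
    rw [abs_of_nonneg this.1, abs_of_nonneg (by linarith)]; exact this.2
  · have := p.q_mono k h
    rw [abs_sub_comm, abs_of_nonneg this.1, abs_sub_comm, abs_of_nonneg (by linarith)]
    exact this.2

lemma q_bound (k : ℕ) (t : ℝ) : |p.q k t| ≤ p.d k := by
  unfold q P
  have h1 := p.d_pos (k + 1)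
  have h2 := p.d_anti (Nat.le_succ k)
  rw [Nat.succ_eq_add_one] at h2
  rw [abs_le]
  constructor <;>
  · rcases le_total t (p.d k) with h1 | h1 <;> rcases le_total t (p.d (k + 1)) with h3 | h3 <;>
    simp only [min_eq_left, min_eq_right, h1, h3] <;>
    rcases le_total (-p.d k) t with h5 | h5 <;> rcases le_total (-p.d (k + 1)) t with h7 | h7 <;>
    rcases le_total (-p.d k) (p.d k) with h9 | h9 <;>
    rcases le_total (-p.d (k + 1)) (p.d (k + 1)) with h10 | h10 <;>
    simp only [max_eq_left, max_eq_right, h5, h7, h9, h10] <;> linarith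

lemma q_bound_one (k : ℕ) (t : ℝ) : |p.q k t| ≤ 1 := (p.q_bound k t).trans (p.d_le_one k)

lemma sum_half : HasSum (fun k : ℕ => ((1 : ℝ) / 2) ^ (k + 1)) 1 := by
  have h := hasSum_geometric_two.mul_left (1 / 2 : ℝ)
  have e : (fun k : ℕ => ((1 : ℝ) / 2) ^ (k + 1)) = fun k => 1 / 2 * (1 / 2) ^ k := by
    ext k; rw [pow_succ]; ring
  rw [e]
  convert! h using 1
  norm_num

lemma summable_half (c : ℝ) : Summable (fun k : ℕ => ((1 : ℝ) / 2) ^ (k + 1) * c) :=
  sum_half.summable.mul_right c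

lemma summable_term (t ρ : ℝ) : Summable (fun k => p.sl k ρ * p.q k t) := by
  refine Summable.of_norm_bounded (g := fun k : ℕ => ((1 : ℝ) / 2) ^ (k + 1) * 1)
    (summable_half 1) fun k => ?_
  rw [Real.norm_eq_abs, abs_mul, abs_of_pos (p.sl_pos k ρ)]
  gcongr
  · exact p.sl_le k ρ
  · exact p.q_bound_one k t

/-- The profile. -/
noncomputable def tau (t ρ : ℝ) : ℝ := (t - P 1 t) + ∑' k, p.sl k ρ * p.q k t

lemma tau_zero (ρ : ℝ) : p.tau 0 ρ = 0 := by
  unfold tau
  simp [p.q_zero, P_zero]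

lemma tau_sub (s t ρ : ℝ) : p.tau t ρ - p.tau s ρ =
    ((t - P 1 t) - (s - P 1 s)) + ∑' k, p.sl k ρ * (p.q k t - p.q k s) := by
  unfold tau
  have h : ∑' k, p.sl k ρ * (p.q k t - p.q k s) =
      ∑' k, p.sl k ρ * p.q k t - ∑' k, p.sl k ρ * p.q k s := by
    rw [← (p.summable_term t ρ).tsum_sub (p.summable_term s ρ)]
    exact tsum_congr fun k => by ring
  rw [h]; ring

lemma tau_mono {s t : ℝ} (h : s ≤ t) (ρ : ℝ) : 0 ≤ p.tau t ρ - p.tau s ρ ∧
    p.tau t ρ - p.tau s ρ ≤ 2 * (t - s) := by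
  rw [tau_sub]
  have h1 := P_outer (c := 1) zero_le_one h
  have h2 : ∀ k, 0 ≤ p.sl k ρ * (p.q k t - p.q k s) := fun k =>
    mul_nonneg (p.sl_pos k ρ).le (p.q_mono k h).1
  have h3 : ∀ k, p.sl k ρ * (p.q k t - p.q k s) ≤ (1 / 2) ^ (k + 1) * (t - s) := fun k =>
    mul_le_mul (p.sl_le k ρ) (p.q_mono k h).2 (p.q_mono k h).1 (by positivity)
  have h4 : Summable (fun k => p.sl k ρ * (p.q k t - p.q k s)) :=
    Summable.of_nonneg_of_le h2 h3 (summable_half _)
  have h5 : ∑' k, p.sl k ρ * (p.q k t - p.q k s) ≤ ∑' k : ℕ, (1 / 2 : ℝ) ^ (k + 1) * (t - s) :=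
    h4.tsum_le_tsum h3 (summable_half _)
  rw [tsum_mul_right, sum_half.tsum_eq, one_mul] at h5
  have h6 : 0 ≤ ∑' k, p.sl k ρ * (p.q k t - p.q k s) := tsum_nonneg h2
  constructor <;> linarith [h1.1, h1.2]

lemma P_tendsto (t : ℝ) : Tendsto (fun k => P (p.d k) t) atTop (𝓝 0) := by
  refine squeeze_zero_norm (fun k => ?_) p.lim
  exact P_abs (p.d_pos k).le t

lemma tau_strictMono (ρ : ℝ) : StrictMono (fun t => p.tau t ρ) := by
  intro s t hst
  have h := (p.tau_mono hst.le ρ).1
  rcases h.lt_or_eq with h | h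
  · show p.tau s ρ < p.tau t ρ
    linarith
  exfalso
  rw [tau_sub] at h
  have h1 := P_outer (c := 1) zero_le_one hst.le
  have h2 : ∀ k, 0 ≤ p.sl k ρ * (p.q k t - p.q k s) := fun k =>
    mul_nonneg (p.sl_pos k ρ).le (p.q_mono k hst.le).1
  have h3 : ∀ k, p.sl k ρ * (p.q k t - p.q k s) ≤ (1 / 2) ^ (k + 1) * (t - s) := fun k =>
    mul_le_mul (p.sl_le k ρ) (p.q_mono k hst.le).2 (p.q_mono k hst.le).1 (by positivity)
  have h4 : Summable (fun k => p.sl k ρ * (p.q k t - p.q k s)) :=
    Summable.of_nonneg_of_le h2 h3 (summable_half _)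
  have h6 : 0 ≤ ∑' k, p.sl k ρ * (p.q k t - p.q k s) := tsum_nonneg h2
  have h7 : ∑' k, p.sl k ρ * (p.q k t - p.q k s) = 0 := by linarith [h1.1]
  have h8 : (t - P 1 t) - (s - P 1 s) = 0 := by linarith
  have h9 : ∀ k, p.q k t - p.q k s = 0 := by
    intro k
    have := (hasSum_zero_iff_of_nonneg h2).mp (h7 ▸ h4.hasSum)
    have h10 := congrFun this k
    rcases mul_eq_zero.mp h10 with h11 | h11
    · exact absurd h11 (p.sl_pos k ρ).ne'
    · exact h11
  have h10 : ∀ k, P (p.d k) t - P (p.d k) s = P 1 t - P 1 s := by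
    intro k
    induction k with
    | zero => rw [p.d0]
    | succ k ih =>
      have := h9 k
      unfold q at this
      linarith
  have h11 : Tendsto (fun k => P (p.d k) t - P (p.d k) s) atTop (𝓝 (0 - 0)) :=
    (p.P_tendsto t).sub (p.P_tendsto s)
  simp only [h10, sub_zero] at h11
  have h12 := tendsto_nhds_unique h11 tendsto_const_nhds
  linarith

lemma cl_lip (k : ℕ) (ρ ρ' : ℝ) : |p.cl k ρ - p.cl k ρ'| ≤ |ρ - ρ'| := by
  unfold cl
  rw [max_comm, max_comm (p.e k)]
  refine (abs_max_sub_max_le_abs _ _ _).trans ?_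
  rcases le_total ρ (p.d k) with h1 | h1 <;> rcases le_total ρ' (p.d k) with h2 | h2 <;>
    simp only [min_eq_left, min_eq_right, h1, h2] <;>
    rcases le_total ρ ρ' with h3 | h3 <;>
    first
    | exact le_refl _
    | (rw [abs_le]; constructor <;> linarith [le_abs_self (ρ - ρ'), neg_abs_le (ρ - ρ')])

lemma tau_rho (t ρ ρ' : ℝ) : |p.tau t ρ - p.tau t ρ'| ≤ |ρ - ρ'| := by
  have h : p.tau t ρ - p.tau t ρ' = ∑' k, (p.sl k ρ * p.q k t - p.sl k ρ' * p.q k t) := by
    unfold tau
    rw [(p.summable_term t ρ).tsum_sub (p.summable_term t ρ')]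
    ring
  have hb : ∀ k, ‖p.sl k ρ * p.q k t - p.sl k ρ' * p.q k t‖ ≤ (1 / 2) ^ (k + 1) * |ρ - ρ'| := by
    intro k
    have e : p.sl k ρ * p.q k t - p.sl k ρ' * p.q k t =
        (1 / 2) ^ (k + 1) * ((p.cl k ρ - p.cl k ρ') * (p.q k t / p.d k)) := by
      unfold sl; ring
    rw [e, Real.norm_eq_abs, abs_mul, abs_of_pos (by positivity : (0 : ℝ) < (1 / 2) ^ (k + 1)),
      abs_mul, abs_div, abs_of_pos (p.d_pos k)]
    have h1 : |p.q k t| / p.d k ≤ 1 := (div_le_one (p.d_pos k)).mpr (p.q_bound k t)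
    gcongr
    calc |p.cl k ρ - p.cl k ρ'| * (|p.q k t| / p.d k) ≤ |ρ - ρ'| * 1 :=
          mul_le_mul (p.cl_lip k ρ ρ') h1 (div_nonneg (abs_nonneg _) (p.d_pos k).le) (abs_nonneg _)
      _ = _ := mul_one _
  rw [h]
  calc |∑' k, (p.sl k ρ * p.q k t - p.sl k ρ' * p.q k t)|
      = ‖∑' k, (p.sl k ρ * p.q k t - p.sl k ρ' * p.q k t)‖ := rfl
    _ ≤ ∑' k : ℕ, (1 / 2 : ℝ) ^ (k + 1) * |ρ - ρ'| :=
        tsum_of_norm_bounded (summable_half _).hasSum hb
    _ = |ρ - ρ'| := by rw [tsum_mul_right, sum_half.tsum_eq, one_mul]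

lemma tau_t (s t ρ : ℝ) : |p.tau t ρ - p.tau s ρ| ≤ 2 * |t - s| := by
  rcases le_total s t with h | h
  · have := p.tau_mono h ρ
    rw [abs_of_nonneg this.1, abs_of_nonneg (by linarith)]; exact this.2
  · have := p.tau_mono h ρ
    rw [abs_sub_comm, abs_of_nonneg this.1, abs_sub_comm, abs_of_nonneg (by linarith)]
    exact this.2

lemma tau_near (t ρ : ℝ) : |p.tau t ρ - t| ≤ 2 := by
  have h1 := P_abs (c := 1) zero_le_one t
  have hb : ∀ k, ‖p.sl k ρ * p.q k t‖ ≤ (1 / 2) ^ (k + 1) := by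
    intro k
    rw [Real.norm_eq_abs, abs_mul, abs_of_pos (p.sl_pos k ρ)]
    calc p.sl k ρ * |p.q k t| ≤ (1 / 2) ^ (k + 1) * 1 :=
          mul_le_mul (p.sl_le k ρ) (p.q_bound_one k t) (abs_nonneg _) (by positivity)
      _ = _ := mul_one _
  have h2 : ‖∑' k, p.sl k ρ * p.q k t‖ ≤ 1 := tsum_of_norm_bounded sum_half hb
  have h3 : p.tau t ρ - t = -P 1 t + ∑' k, p.sl k ρ * p.q k t := by unfold tau; ring
  rw [h3]
  refine (abs_add_le _ _).trans ?_
  rw [abs_neg]
  rw [Real.norm_eq_abs] at h2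
  linarith

/-- flatness on the axis -/
lemma tau_flat (k : ℕ) : p.tau (p.d k) 0 ≤ p.e k := by
  have hP : ∀ j, j ≤ k → P (p.d j) (p.d k) = p.d k := by
    intro j hj
    unfold P
    rw [min_eq_left (p.d_anti hj), max_eq_right]
    linarith [p.d_pos j, p.d_pos k]
  have h1 : P 1 (p.d k) = p.d k := by
    have := hP 0 (Nat.zero_le k)
    rwa [p.d0] at this
  have hq : ∀ j, j < k → p.q j (p.d k) = 0 := by
    intro j hj
    unfold q
    rw [hP j hj.le, hP (j + 1) hj, sub_self]
  have hcl : ∀ j, p.cl j 0 = p.e j := by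
    intro j
    unfold cl
    rw [min_eq_left (p.d_pos j).le, max_eq_left (p.he j).le]
  have hb : ∀ j, ‖p.sl j 0 * p.q j (p.d k)‖ ≤ (1 / 2) ^ (j + 1) * p.e k := by
    intro j
    rcases lt_or_ge j k with hj | hj
    · rw [hq j hj, mul_zero, norm_zero]
      have := p.he k
      positivity
    · rw [Real.norm_eq_abs, abs_mul, abs_of_pos (p.sl_pos j 0)]
      unfold sl
      rw [hcl, mul_assoc]
      gcongr
      have h2 : p.e j ≤ p.e k := by
        rcases hj.eq_or_lt with h | h
        · rw [h]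
        · exact (p.hed j).trans ((p.d_anti h).trans (p.hde k))
      have h3 := p.q_bound j (p.d k)
      have h4 := p.d_pos j
      calc p.e j / p.d j * |p.q j (p.d k)| ≤ p.e j / p.d j * p.d j := by
            have := (p.he j).le
            gcongr
        _ = p.e j := by field_simp
        _ ≤ p.e k := h2
  have h5 : ‖∑' j, p.sl j 0 * p.q j (p.d k)‖ ≤ 1 * p.e k :=
    tsum_of_norm_bounded (sum_half.mul_right _) hb
  have h6 := (le_abs_self _).trans h5
  unfold tau
  rw [h1]
  linarith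

/-- the derivative in `t` away from the exceptional values, outside of the unit interval -/
lemma tau_deriv_outer {t : ℝ} (ht : 1 < |t|) (ρ : ℝ) : HasDerivAt (fun s => p.tau s ρ) 1 t := by
  have hev : ∀ᶠ s in 𝓝 t, p.tau s ρ = p.tau t ρ + (s - t) := by
    rcases lt_abs.mp ht with h | h
    · filter_upwards [lt_mem_nhds h] with s hs
      have hPs : ∀ c, 0 < c → c ≤ 1 → P c s = P c t := by
        intro c hc0 hc
        unfold P
        rw [min_eq_right (by linarith), min_eq_right (by linarith)]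
      have hq : ∀ k, p.q k s - p.q k t = 0 := by
        intro k
        unfold q
        rw [hPs _ (p.d_pos k) (p.d_le_one k), hPs _ (p.d_pos _) (p.d_le_one _), sub_self]
      have := p.tau_sub t s ρ
      simp only [hq, mul_zero, tsum_zero, hPs 1 one_pos le_rfl] at this
      linarith
    · have h' : t < -1 := by linarith
      filter_upwards [gt_mem_nhds h'] with s hs
      have hPs : ∀ c, 0 < c → c ≤ 1 → P c s = P c t := by
        intro c hc0 hc
        unfold P
        rw [min_eq_left (by linarith), min_eq_left (by linarith), max_eq_left (by linarith),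
          max_eq_left (by linarith)]
      have hq : ∀ k, p.q k s - p.q k t = 0 := by
        intro k
        unfold q
        rw [hPs _ (p.d_pos k) (p.d_le_one k), hPs _ (p.d_pos _) (p.d_le_one _), sub_self]
      have := p.tau_sub t s ρ
      simp only [hq, mul_zero, tsum_zero, hPs 1 one_pos le_rfl] at this
      linarith
  have h1 : HasDerivAt (fun s => p.tau t ρ + (s - t)) 1 t := by
    have := ((hasDerivAt_id t).sub_const t).const_add (p.tau t ρ)
    simpa using this
  exact h1.congr_of_eventuallyEq hev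

lemma P_inner {c s : ℝ} (h : |s| < c) : P c s = s := by
  unfold P
  rw [abs_lt] at h
  rw [min_eq_left h.2.le, max_eq_right h.1.le]

/-- the derivative in `t` in the `k`-th layer -/
lemma tau_deriv_inner {t : ℝ} (k : ℕ) (h1 : p.d (k + 1) < |t|) (h2 : |t| < p.d k) (ρ : ℝ) :
    HasDerivAt (fun s => p.tau s ρ) (p.sl k ρ) t := by
  have hev : ∀ᶠ s in 𝓝 t, p.tau s ρ = p.tau t ρ + p.sl k ρ * (s - t) := by
    have hA : ∀ᶠ s in 𝓝 t, |s| < p.d k := continuous_abs.continuousAt.eventually_lt_const h2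
    have hB : ∀ᶠ s in 𝓝 t, P (p.d (k + 1)) s = P (p.d (k + 1)) t ∧
        ∀ j, k + 1 ≤ j → P (p.d j) s = P (p.d j) t := by
      rcases lt_abs.mp h1 with h | h
      · filter_upwards [lt_mem_nhds h] with s hs
        have key : ∀ j, k + 1 ≤ j → P (p.d j) s = P (p.d j) t := by
          intro j hj
          have := p.d_anti hj
          unfold P
          rw [min_eq_right (by linarith), min_eq_right (by linarith)]
        exact ⟨key _ le_rfl, key⟩
      · have h' : t < -p.d (k + 1) := by linarith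
        filter_upwards [gt_mem_nhds h'] with s hs
        have key : ∀ j, k + 1 ≤ j → P (p.d j) s = P (p.d j) t := by
          intro j hj
          have := p.d_anti hj
          have h0 := p.d_pos j
          unfold P
          rw [min_eq_left (by linarith), min_eq_left (by linarith), max_eq_left (by linarith),
            max_eq_left (by linarith)]
        exact ⟨key _ le_rfl, key⟩
    filter_upwards [hA, hB] with s hs hs2
    have hin : ∀ j, j ≤ k → P (p.d j) s = s ∧ P (p.d j) t = t := fun j hj =>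
      ⟨P_inner (hs.trans_le (p.d_anti hj)), P_inner (h2.trans_le (p.d_anti hj))⟩
    have h10 : P 1 s = s ∧ P 1 t = t := by
      have := hin 0 (Nat.zero_le k)
      rwa [p.d0] at this
    have hsum : ∑' j, p.sl j ρ * (p.q j s - p.q j t) = p.sl k ρ * (s - t) := by
      rw [tsum_eq_single k]
      · unfold q
        rw [(hin k le_rfl).1, (hin k le_rfl).2, hs2.1]
        ring
      · intro j hj
        unfold q
        rcases lt_or_gt_of_ne hj with hj | hj
        · rw [(hin j hj.le).1, (hin j hj.le).2, (hin (j + 1) hj).1, (hin (j + 1) hj).2]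
          ring
        · rw [hs2.2 j hj, hs2.2 (j + 1) (by omega)]
          ring
    have := p.tau_sub t s ρ
    rw [hsum, h10.1, h10.2] at this
    linarith
  have h3 : HasDerivAt (fun s => p.tau t ρ + p.sl k ρ * (s - t)) (p.sl k ρ) t := by
    have := (((hasDerivAt_id t).sub_const t).const_mul (p.sl k ρ)).const_add (p.tau t ρ)
    simpa using this
  exact h3.congr_of_eventuallyEq hev

end Par

end Pool.Agent.N284.Inv
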