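import Pool.Agent.N284.Inv.Map

/-! Weak differentials of Lipschitz maps, and the Jacobian of the shear map. -/

set_option autoImplicit false

open Filter Topology MeasureTheory
open scoped NNReal ContDiff

namespace Pool.Agent.N284.Inv

lemma weak_of_lipschitz {n : ℕ} {f : E n → E n} {C : ℝ≥0} (hf : LipschitzWith C f)
    (φ : E n → ℝ) (hφ : ContDiff ℝ ∞ φ) (hc : HasCompactSupport φ) (v : E n) :
    ∫ x, (fderiv ℝ φ x v) • f x = - ∫ x, φ x • fderiv ℝ f x v := by
  have hφ1 : ContDiff ℝ 1 φ := hφ.of_le (by exact_mod_cast le_top)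
  have hcd : Continuous (fun x => fderiv ℝ φ x v) :=
    (hφ1.continuous_fderiv (by norm_num)).clm_apply continuous_const
  have hcs : HasCompactSupport (fun x => fderiv ℝ φ x v) := by
    refine (hc.fderiv (𝕜 := ℝ)).comp_left (g := fun L : E n →L[ℝ] ℝ => L v) ?_
    simp
  have hint1 : Integrable (fun x => (fderiv ℝ φ x v) • f x) :=
    (hcd.smul hf.continuous).integrable_of_hasCompactSupport hcs.smul_right
  have hint2 : Integrable (fun x => φ x • fderiv ℝ f x v) := by
    have h1 : Integrable (fun x => ‖φ x‖ * (C * ‖v‖)) :=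
      ((hφ.continuous.integrable_of_hasCompactSupport hc).norm.mul_const _)
    refine h1.mono' ?_ (Eventually.of_forall fun x => ?_)
    · exact (hφ.continuous.aestronglyMeasurable).smul
        (measurable_fderiv_apply_const ℝ f v).aestronglyMeasurable
    · rw [norm_smul]
      gcongr
      exact (ContinuousLinearMap.le_opNorm _ _).trans
        (mul_le_mul_of_nonneg_right (norm_fderiv_le_of_lipschitz ℝ hf) (norm_nonneg _))
  have hdiff := hf.ae_differentiableAt (μ := (volume : Measure (E n)))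
  ext i
  have e1 : (∫ x, (fderiv ℝ φ x v) • f x) i = ∫ x, (fderiv ℝ φ x v) * f x i := by
    have := (EuclideanSpace.proj (𝕜 := ℝ) i).integral_comp_comm hint1
    simpa using this.symm
  have e2 : (∫ x, φ x • fderiv ℝ f x v) i = ∫ x, φ x * (fderiv ℝ f x v) i := by
    have := (EuclideanSpace.proj (𝕜 := ℝ) i).integral_comp_comm hint2
    simpa using this.symm
  have hF : LipschitzWith C (fun x => f x i) := LipschitzWith.of_dist_le_mul fun x y => by
    rw [Real.dist_eq]
    calc |f x i - f y i| ≤ ‖f x - f y‖ := PiLp.norm_apply_le (f x - f y) i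
      _ = dist (f x) (f y) := (dist_eq_norm _ _).symm
      _ ≤ _ := hf.dist_le_mul x y
  obtain ⟨D, hD⟩ : ∃ D, LipschitzWith D φ :=
    ContDiff.lipschitzWith_of_hasCompactSupport hc hφ (by simp)
  have key := hF.integral_lineDeriv_mul_eq (μ := (volume : Measure (E n))) hD hc v
  have e3 : ∫ x, lineDeriv ℝ (fun x => f x i) x v * φ x = ∫ x, φ x * (fderiv ℝ f x v) i := by
    apply integral_congr_ae
    filter_upwards [hdiff] with x hx
    have h1 : HasFDerivAt (fun x => f x i)
        ((EuclideanSpace.proj (𝕜 := ℝ) i : E n →L[ℝ] ℝ).comp (fderiv ℝ f x)) x :=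
      (EuclideanSpace.proj (𝕜 := ℝ) i : E n →L[ℝ] ℝ).hasFDerivAt.comp x hx.hasFDerivAt
    rw [h1.differentiableAt.lineDeriv_eq_fderiv, h1.fderiv]
    simp [mul_comm]
  have e4 : ∫ x, lineDeriv ℝ φ x (-v) * f x i = - ∫ x, (fderiv ℝ φ x v) * f x i := by
    rw [← integral_neg]
    apply integral_congr_ae
    filter_upwards with x
    rw [(hφ1.differentiable (by norm_num)).differentiableAt.lineDeriv_eq_fderiv, map_neg]
    ring
  rw [PiLp.neg_apply, e1, e2, ← e3, key, e4, neg_neg]

variable {m : ℕ} (p : Par)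

/-- The Jacobian of the map at a point of differentiability. -/
lemma det_F {x : E (m + 1)} {w : ℝ} (hx : DifferentiableAt ℝ (F p) x)
    (hw : HasDerivAt (fun s => p.tau s (rho x)) w (x 0)) : (fderiv ℝ (F p) x).det = w := by
  set u : E (m + 1) → ℝ := fun y => p.tau (y 0) (rho y) - y 0 with hu
  have hud : DifferentiableAt ℝ u x := by
    have h1 : DifferentiableAt ℝ (fun y : E (m + 1) => (F p y) 0 - y 0) x := by
      have h2 : DifferentiableAt ℝ (fun y : E (m + 1) => (F p y) 0) x :=
        (EuclideanSpace.proj (𝕜 := ℝ) (0 : Fin (m + 1)) : E (m + 1) →L[ℝ] ℝ).differentiableAt.comp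
          x hx
      have h3 : DifferentiableAt ℝ (fun y : E (m + 1) => y 0) x :=
        (EuclideanSpace.proj (𝕜 := ℝ) (0 : Fin (m + 1)) : E (m + 1) →L[ℝ] ℝ).differentiableAt
      exact h2.sub h3
    simpa only [F_zero] using h1
  have hF : HasFDerivAt (F p) (ContinuousLinearMap.id ℝ (E (m + 1)) +
      (fderiv ℝ u x).smulRight (e0 : E (m + 1))) x :=
    (hasFDerivAt_id x).add (hud.hasFDerivAt.smul_const (e0 : E (m + 1)))
  rw [hF.fderiv]
  have hdet : (ContinuousLinearMap.id ℝ (E (m + 1)) +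
      (fderiv ℝ u x).smulRight (e0 : E (m + 1))).det = 1 + fderiv ℝ u x e0 := by
    exact LinearMap.transvection.det ((fderiv ℝ u x : E (m + 1) →L[ℝ] ℝ) : E (m + 1) →ₗ[ℝ] ℝ)
      (e0 : E (m + 1))
  rw [hdet]
  -- the derivative of `u` in the direction `e0`
  have hrho : ∀ s : ℝ, rho (x + s • e0) = rho x := by
    intro s
    unfold rho
    congr 1
    funext i
    simp [e0_succ]
  have hzero : ∀ s : ℝ, (x + s • (e0 : E (m + 1))) 0 = x 0 + s := by
    intro s
    simp [e0_zero]
  have h1 : HasDerivAt (fun s : ℝ => u (x + s • e0)) (fderiv ℝ u x e0) 0 := by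
    have h2 : HasDerivAt (fun s : ℝ => x + s • e0) (e0 : E (m + 1)) 0 := by
      have := ((hasDerivAt_id (0 : ℝ)).smul_const (e0 : E (m + 1))).const_add x
      simpa using this
    have h3 : HasFDerivAt u (fderiv ℝ u x) (x + (0 : ℝ) • e0) := by
      rw [zero_smul, add_zero]; exact hud.hasFDerivAt
    exact h3.comp_hasDerivAt (0 : ℝ) h2
  have h4 : HasDerivAt (fun s : ℝ => u (x + s • e0)) (w - 1) 0 := by
    have h5 : (fun s : ℝ => u (x + s • e0)) =
        fun s : ℝ => p.tau (x 0 + s) (rho x) - (x 0 + s) := by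
      funext s
      simp only [hu, hrho, hzero]
    rw [h5]
    have h6 : HasDerivAt (fun s : ℝ => x 0 + s) 1 0 := by
      simpa using (hasDerivAt_id (0 : ℝ)).const_add (x 0)
    have h7 : HasDerivAt (fun s : ℝ => p.tau (x 0 + s) (rho x)) (w * 1) 0 := by
      refine HasDerivAt.comp (0 : ℝ) (h₂ := fun s => p.tau s (rho x)) ?_ h6
      rw [add_zero]; exact hw
    rw [mul_one] at h7
    exact h7.sub h6
  have := h1.unique h4
  linarith

lemma norm_fderiv_F (x : E (m + 1)) : ‖fderiv ℝ (F p) x‖ ≤ 5 :=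
  norm_fderiv_le_of_lipschitz ℝ (F_lip p)

end Pool.Agent.N284.Inv
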